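import Mathlib
import Pool.Agent.Q4.Hall.OptMain

set_option autoImplicit false

/-!
# Hall's inequality at the convergents of algebraic numbers

`X = F(q, p)` with `F ∈ ℤ[U, V]` of even degree `D`, at all rational approximations `p / q` with
`|ξ - p / q| ≤ q ^ (η - 2)` of an algebraic number `ξ` of degree `r ≥ 3` (for instance at all
convergents), and `Y` an arbitrary integer.
-/

namespace Pool.Agent.Results.MP_9d7cd1_nt.AbscissaeAtConvergents

open MvPolynomial

/-- the value `F(q, p)` -/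
noncomputable def value (F : MvPolynomial (Fin 2) ℤ) (q : ℕ) (p : ℤ) : ℤ :=
  eval (fun i => if i = 0 then (q : ℤ) else p) F

/-- the value at `(1, ξ)` of the homogeneous part of degree `m` -/
noncomputable def atInfinity (ξ : ℝ) (m : ℕ) (F : MvPolynomial (Fin 2) ℤ) : ℝ :=
  aeval (fun i : Fin 2 => (if i = 0 then (1 : ℝ) else ξ)) (homogeneousComponent m F)

/-- the change of names of the variables -/
def nm : Fin 2 → Option Unit := fun i => if i = 0 then none else some ()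

lemma nm_inj : Function.Injective nm := by
  intro i j h
  fin_cases i <;> fin_cases j <;> simp_all [nm]

lemma value_eq (F : MvPolynomial (Fin 2) ℤ) (q : ℕ) (x : Unit → ℤ) :
    eval (Pool.Agent.Q4.Tube.px q x) (rename nm F) = value F q (x ()) := by
  unfold value
  rw [eval_rename]
  congr 1
  congr 1
  funext i
  fin_cases i <;> simp [nm, Pool.Agent.Q4.Tube.px]

lemma top_eq (F : MvPolynomial (Fin 2) ℤ) (m : ℕ) (θ : Unit → ℝ) :
    Pool.Agent.Q4.Cov.topv m (rename nm F) θ = atInfinity (θ ()) m F := by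
  unfold Pool.Agent.Q4.Cov.topv atInfinity
  have h1 : homogeneousComponent m (rename nm F) = rename nm (homogeneousComponent m F) := by
    have h2 : F = ∑ i ∈ Finset.range (F.totalDegree + 1), homogeneousComponent i F :=
      (sum_homogeneousComponent F).symm
    conv_lhs => rw [h2]
    rw [map_sum, map_sum]
    by_cases hm : m ∈ Finset.range (F.totalDegree + 1)
    · rw [Finset.sum_eq_single m]
      · rw [homogeneousComponent_of_mem ((homogeneousComponent_isHomogeneous m F).rename_isHomogeneous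
          (f := nm)), if_pos rfl]
      · intro i _ hi
        rw [homogeneousComponent_of_mem ((homogeneousComponent_isHomogeneous i F).rename_isHomogeneous
          (f := nm)), if_neg (Ne.symm hi)]
      · intro h
        exact absurd hm h
    · rw [Finset.sum_eq_zero, homogeneousComponent_eq_zero, map_zero]
      · rw [Finset.mem_range] at hm
        omega
      · intro i hi
        rw [homogeneousComponent_of_mem ((homogeneousComponent_isHomogeneous i F).rename_isHomogeneous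
          (f := nm)), if_neg]
        rintro rfl
        exact hm hi
  rw [h1, aeval_rename]
  congr 1
  congr 1
  funext i
  fin_cases i <;> simp [nm]

/-- the first inequality -/
theorem main (ξ : ℝ) (hξ : IsAlgebraic ℚ ξ) (h3 : 3 ≤ (minpoly ℚ ξ).natDegree)
    (F : MvPolynomial (Fin 2) ℤ) (D : ℕ) (hD : 0 < D) (hD2 : Even D) (hF : F.totalDegree ≤ D)
    (htop : atInfinity ξ D F ≠ 0) (ε : ℝ) (hε : 0 < ε) :
    ∃ (η : ℝ) (N : ℕ), 0 < η ∧ ∀ q ≥ N, ∀ p : ℤ, |ξ - p / q| ≤ (q : ℝ) ^ (η - 2) → ∀ Y d : ℤ,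
      d ≠ 0 → Y ^ 2 = (value F q p) ^ 3 + d →
      |((value F q p : ℤ) : ℝ)|
        ^ ((1 - 2 / ((minpoly ℚ ξ).natDegree : ℝ)) * (1 / 2 + 1 / (D : ℝ)) - ε) < |(d : ℝ)| := by
  classical
  obtain ⟨k, hk⟩ := hD2
  have hk0 : 0 < k := by omega
  have hDr : (0 : ℝ) < D := by exact_mod_cast hD
  have hF' : (rename nm F).totalDegree ≤ D := (totalDegree_rename_le _ _).trans hF
  obtain ⟨η, N, hη, h⟩ := Pool.Agent.Q4.Hall.hall_mainO (fun _ => ξ) hξ h3 (F := rename nm F) hF' hD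
    (by rw [top_eq]; exact htop) (a := 3) (b := 2) (E := 3 * k)
    (by norm_num) (by norm_num) (by omega) (by omega)
    ((1 - 2 / ((minpoly ℚ ξ).natDegree : ℝ)) * (1 / 2 + 1 / (D : ℝ)) - ε) (by
      have h1 : (D : ℝ) = 2 * k := by rw [hk]; push_cast; ring
      have h2 : ((1 - 2 / ((minpoly ℚ ξ).natDegree : ℝ)) * (1 / 2 + 1 / (D : ℝ)) - ε) * D
          = (1 - 2 / ((minpoly ℚ ξ).natDegree : ℝ)) * ((1 / 2 + 1 / (D : ℝ)) * D) - ε * D := by ring
      have h3' : (1 / 2 + 1 / (D : ℝ)) * D = D / 2 + 1 := by field_simp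
      have h4 : ((((3 - 1) * D + 1 : ℕ) : ℝ) - ((3 * k : ℕ) : ℝ)) = D / 2 + 1 := by
        rw [h1]
        push_cast
        rw [h1]
        ring
      rw [h2, h3', h4]
      have h5 : 0 < ε * D := by positivity
      linarith)
  refine ⟨η, max N 1, hη, fun q hq p hp Y d hd heq => ?_⟩
  have hq1 : 1 ≤ q := (le_max_right _ _).trans hq
  have hqp : (0 : ℝ) < q := by exact_mod_cast hq1
  have h1 := h q ((le_max_left _ _).trans hq) (fun _ => p) (by
    have h2 : ξ * q - p = q * (ξ - p / q) := by field_simp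
    have h3' : (q : ℝ) ^ (η - 2) = (q : ℝ) ^ η / q ^ 2 := by
      rw [Real.rpow_sub hqp]
      norm_num
    rw [h3'] at hp
    change (q : ℝ) * |ξ * q - (p : ℝ)| ≤ _
    rw [h2, abs_mul, abs_of_pos hqp]
    calc (q : ℝ) * (q * |ξ - p / q|) ≤ q * (q * ((q : ℝ) ^ η / q ^ 2)) := by gcongr
      _ = (q : ℝ) ^ η := by field_simp) Y (by
    rw [value_eq]
    intro h2
    apply hd
    rw [heq] at h2
    linarith)
  rw [value_eq] at h1
  have h2 : (d : ℝ) = (Y : ℝ) ^ 2 - ((value F q p : ℤ) : ℝ) ^ 3 := by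
    have h3' : (Y : ℝ) ^ 2 = ((value F q p : ℤ) : ℝ) ^ 3 + d := by exact_mod_cast heq
    rw [h3']
    ring
  rw [h2]
  exact h1

/-- Let `ξ` be a real algebraic number of degree `r ≥ 3`, `F ∈ ℤ[U, V]` of degree at most `D`, where
`D > 0` is even, and suppose that the homogeneous part of degree `D` of `F` does not vanish at
`(1, ξ)`. For every `ε > 0` there are `η > 0` and `N` such that for all integers `q ≥ N` and `p` with
`|ξ - p / q| ≤ q ^ (η - 2)`, all integers `Y` and `d ≠ 0` with `Y² = X³ + d`, `X = F(q, p)`: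
`|d| > |X| ^ ((1 - 2/r) (1/2 + 1/D) - ε)` and, if `r ≥ D + 2`, `|X| ≤ |d| ^ (2 + ε)`. -/
theorem result (ξ : ℝ) (hξ : IsAlgebraic ℚ ξ) (h3 : 3 ≤ (minpoly ℚ ξ).natDegree)
    (F : MvPolynomial (Fin 2) ℤ) (D : ℕ) (hD : 0 < D) (hD2 : Even D) (hF : F.totalDegree ≤ D)
    (htop : atInfinity ξ D F ≠ 0) (ε : ℝ) (hε : 0 < ε) :
    ∃ (η : ℝ) (N : ℕ), 0 < η ∧ ∀ q ≥ N, ∀ p : ℤ, |ξ - p / q| ≤ (q : ℝ) ^ (η - 2) → ∀ Y d : ℤ,
      d ≠ 0 → Y ^ 2 = (value F q p) ^ 3 + d →
      |((value F q p : ℤ) : ℝ)|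
        ^ ((1 - 2 / ((minpoly ℚ ξ).natDegree : ℝ)) * (1 / 2 + 1 / (D : ℝ)) - ε) < |(d : ℝ)| ∧
      (D + 2 ≤ (minpoly ℚ ξ).natDegree →
        |((value F q p : ℤ) : ℝ)| ≤ |(d : ℝ)| ^ (2 + ε)) := by
  obtain ⟨η, N, hη, h⟩ := main ξ hξ h3 F D hD hD2 hF htop ε hε
  set ε1 : ℝ := ε / (2 * (2 + ε)) with hε1
  obtain ⟨η', N', hη', h'⟩ := main ξ hξ h3 F D hD hD2 hF htop ε1 (by positivity)
  refine ⟨min η η', max N (max N' 1), lt_min hη hη', fun q hq p hp Y d hd heq => ?_⟩
  have hq1 : (1 : ℝ) ≤ q := by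
    have h1 : 1 ≤ q := (le_max_right _ _).trans ((le_max_right _ _).trans hq)
    exact_mod_cast h1
  have hpe : ∀ e, min η η' ≤ e → |ξ - p / q| ≤ (q : ℝ) ^ (e - 2) := fun e he =>
    hp.trans (Real.rpow_le_rpow_of_exponent_le hq1 (by linarith))
  refine ⟨h q ((le_max_left _ _).trans hq) p (hpe _ (min_le_left _ _)) Y d hd heq, fun hr => ?_⟩
  have h1 := h' q ((le_max_left _ _).trans ((le_max_right _ _).trans hq)) p (hpe _ (min_le_right _ _))
    Y d hd heq
  have hd1 : (1 : ℝ) ≤ |(d : ℝ)| := by exact_mod_cast Int.one_le_abs hd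
  set X : ℝ := ((value F q p : ℤ) : ℝ) with hX
  rcases eq_or_ne (value F q p) 0 with h0 | h0
  · rw [hX, h0, Int.cast_zero, abs_zero]
    positivity
  have hX1 : (1 : ℝ) ≤ |X| := by
    rw [hX]
    exact_mod_cast Int.one_le_abs h0
  have hX0 : 0 ≤ |X| := abs_nonneg _
  set r : ℝ := ((minpoly ℚ ξ).natDegree : ℝ) with hrd
  have hrD : (D : ℝ) + 2 ≤ r := by
    rw [hrd]
    exact_mod_cast hr
  have hDr : (0 : ℝ) < D := by exact_mod_cast hD
  have hr0 : 0 < r := by linarith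
  have h2 : 1 / 2 ≤ (1 - 2 / r) * (1 / 2 + 1 / (D : ℝ)) := by
    have h3' : (1 - 2 / r) * (1 / 2 + 1 / (D : ℝ)) = ((r - 2) * (D + 2)) / (r * (2 * D)) := by
      field_simp
    rw [h3', div_le_div_iff₀ (by norm_num) (by positivity)]
    nlinarith
  have h4 : |X| ^ (1 / 2 - ε1) ≤ |(d : ℝ)| :=
    (Real.rpow_le_rpow_of_exponent_le hX1 (by linarith)).trans h1.le
  have h5 : (1 / 2 - ε1) * (2 + ε) = 1 := by
    rw [hε1]
    field_simp
    ring
  calc |X| = (|X| ^ (1 / 2 - ε1)) ^ (2 + ε) := by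
        rw [← Real.rpow_mul hX0, h5, Real.rpow_one]
    _ ≤ |(d : ℝ)| ^ (2 + ε) := Real.rpow_le_rpow (by positivity) h4 (by linarith)

end Pool.Agent.Results.MP_9d7cd1_nt.AbscissaeAtConvergents
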