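import Mathlib
import Pool.Agent.Q4.Hyp.RegMain

set_option autoImplicit false

/-!
# Hall's inequality at integral points where a regular function is a polynomial value near a ray

All integral points `(X, Y)` of all Mordell curves `Y² = X³ + d`, `d ≠ 0`, at which the function
`A(X) + B(X) Y` (for fixed `A, B ∈ ℤ[X]`) takes a value `F(q, x₁, …, xₙ)` of a polynomial `F` at an
integral point near the ray spanned by `(1, θ₁, …, θₙ)`, for algebraic numbers `θᵢ`.

The proof: if `d` is small, then `Y / X` is close to a root `ρ` of the equation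
`A(ρ²) + B(ρ²) ρ³ = F(q, x)`, and `X`, `Y` are close to `ρ²`, `ρ³`; the subspace theorem shows that
`X` and `Y` are values of polynomials at `(q, x)`; then Davenport's inequality for polynomials and a
lower bound for the values of polynomials at these points.
-/

namespace Pool.Agent.Results.MP_9d7cd1_nt.FunctionsNearRays

open MvPolynomial

/-- the point `(q, x₁, …, xₙ)`; the variable `none` is the one of `q` -/
def point {n : ℕ} (q : ℕ) (x : Fin n → ℤ) : Option (Fin n) → ℤ := fun o => o.elim (q : ℤ) x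

/-- the integral points `(q, x₁, …, xₙ)` near the ray spanned by `(1, θ₁, …, θₙ)`: `q = u w` where `u`
is composed of primes of `S` and `w ≤ q ^ η`, and `|θₛ q - xₛ| ≤ q ^ η` for all `s` -/
def NearRay {n : ℕ} (S : Finset ℕ) (θ : Fin n → ℝ) (η : ℝ) (q : ℕ) (x : Fin n → ℤ) : Prop :=
  (∃ u w : ℕ, q = u * w ∧ u.primeFactors ⊆ S ∧ (w : ℝ) ≤ (q : ℝ) ^ η) ∧
  ∀ s, |θ s * q - x s| ≤ (q : ℝ) ^ η

/-- the value at `(1, θ)` of the homogeneous part of degree `m` -/
noncomputable def atInfinity {n : ℕ} (θ : Fin n → ℝ) (m : ℕ) (F : MvPolynomial (Option (Fin n)) ℤ) : ℝ :=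
  aeval (fun o : Option (Fin n) => (o.elim 1 θ : ℝ)) (homogeneousComponent m F)

/-- the restriction `A(T²) + B(T²) T³` of the function `A(X) + B(X) Y` to the cuspidal cubic
`(T², T³)` -/
noncomputable def onCusp (A B : Polynomial ℤ) : Polynomial ℤ :=
  A.comp (Polynomial.X ^ 2) + B.comp (Polynomial.X ^ 2) * Polynomial.X ^ 3

/-- Let `A, B ∈ ℤ[X]`, let `w > 0` be the degree of `A(T²) + B(T²) T³`, and let `j > 0`. Let
`1, θ₁, …, θₙ` be real algebraic numbers, linearly independent over `ℚ`, and `S` a finite set of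
primes. Let `F ∈ ℤ[X₀, …, Xₙ]` have degree at most `w j`, and suppose that the homogeneous part of
degree `w j` of `F` does not vanish at `(1, θ)`. For `0 < ε < 1/2` there are `η > 0` and `N` such that
for all integral points `x = (q, x₁, …, xₙ)` near the ray with `q ≥ N` and all integers `X`, `Y`,
`d ≠ 0` with `Y² = X³ + d` and `A(X) + B(X) Y = F(x)`: `|d| > |X| ^ (1/2 + 1/(2j) - ε)`. -/
theorem result (A B : Polynomial ℤ) (hw : 0 < (onCusp A B).natDegree) (n : ℕ) (θ : Fin n → ℝ)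
    (halg : ∀ s, IsAlgebraic ℚ (θ s))
    (hind : LinearIndependent ℚ (fun o : Option (Fin n) => (o.elim 1 θ : ℝ))) (S : Finset ℕ)
    (F : MvPolynomial (Option (Fin n)) ℤ) (j : ℕ) (hj : 0 < j)
    (hF : F.totalDegree ≤ (onCusp A B).natDegree * j)
    (htop : atInfinity θ ((onCusp A B).natDegree * j) F ≠ 0) (ε : ℝ) (hε : 0 < ε) (hε2 : ε < 1 / 2) :
    ∃ (η : ℝ) (N : ℕ), 0 < η ∧ ∀ q ≥ N, ∀ x, NearRay S θ η q x → ∀ X Y d : ℤ, d ≠ 0 →
      Y ^ 2 = X ^ 3 + d → A.eval X + B.eval X * Y = eval (point q x) F →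
      |(X : ℝ)| ^ (1 / 2 + 1 / (2 * (j : ℝ)) - ε) < |(d : ℝ)| := by
  classical
  have hf : ∀ x : ℕ, x.primeFactors ⊆ S → x.primeFactors ⊆ S.filter Nat.Prime := fun x hx p hp =>
    Finset.mem_filter.2 ⟨hx hp, Nat.prime_of_mem_primeFactors hp⟩
  have hc : Pool.Agent.Q4.Hyp.cusp A B = onCusp A B := by
    unfold Pool.Agent.Q4.Hyp.cusp onCusp
    rw [Polynomial.expand_eq_comp_X_pow, Polynomial.expand_eq_comp_X_pow, mul_comm]
  have hjr : (0 : ℝ) < j := by exact_mod_cast hj
  obtain ⟨η, N, hη, h⟩ := Pool.Agent.Q4.Hyp.reg_main (S.filter Nat.Prime)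
    (fun p hp => (Finset.mem_filter.1 hp).2) halg hind (A := A) (B := B) (F := F) (j := j)
    (by rw [hc]; exact hw) (by rw [hc]; exact hF) hj (by rw [hc]; exact htop)
    (e := 1 / 2 + 1 / (2 * (j : ℝ)) - ε) (by
      have : 0 < 1 / (2 * (j : ℝ)) := by positivity
      linarith) (by linarith)
  refine ⟨η, N, hη, fun q hq x hx X Y d hd heq hAB => ?_⟩
  obtain ⟨u, w, h1, h2, h3⟩ := hx.1
  have h4 := h q hq x ⟨⟨u, w, h1, hf _ h2, h3⟩, hx.2⟩ X Y hAB (by
    intro h5
    apply hd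
    rw [h5] at heq
    linarith)
  have h5 : (Y : ℝ) ^ 2 - (X : ℝ) ^ 3 = d := by
    have h6 : (Y : ℝ) ^ 2 = (X : ℝ) ^ 3 + d := by exact_mod_cast heq
    rw [h6]
    ring
  rwa [h5] at h4

end Pool.Agent.Results.MP_9d7cd1_nt.FunctionsNearRays
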