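import Pool.Agent.Q44.Appr
import Pool.Agent.Results.MP_e734ed_nt.WindowsWithoutExceptions

/-!
# Hall's inequality at the integral points whose ordinate is given by the continued fraction of a real number

Let `ε ≥ 0` and `s = 1/6 + 1/(9 (2 + ε))` (`s = 2/9` for `ε = 0`). For almost every real number `α`, every
constant `c` and all integers `(u, v) ≠ (0, 0)`, `log |x| < (2 + ε) log |d| - c` at all integral points `(x, y)`,
`x ≠ 0`, of all the curves `y² = x³ + d`, `d ≠ 0`, such that `|y| = |u P + v Q|` for a convergent `P / Q` of the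
continued fraction of `α`, apart from finitely many convergents. The exceptional set of `α` has Hausdorff
dimension at most `(1 + s) / 2`. The same for the approximations of other qualities, of points of `ℝ ^ d`, and for
polynomials in the denominator and the numerators.
-/

set_option autoImplicit false

namespace Pool.Agent.Results.MP_9d7cd1_nt.GoodApproximations

open Pool.Agent.Q44.CF

/-- `log |x| < (2 + ε) log |d| - c` for all integral points `(x, ± n)`, `x ≠ 0`, of all the curves `y² = x³ + d`,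
`d ≠ 0` -/
def HallAt (ε : ℝ) (c n : ℕ) : Prop :=
  ∀ d x y : ℤ, y.natAbs = n → d ≠ 0 → x ≠ 0 → y ^ 2 = x ^ 3 + d →
    Real.log |(x : ℝ)| < (2 + ε) * Real.log |(d : ℝ)| - c

/-- **Theorem.** Let `ε ≥ 0` and `s = 1/6 + 1/(9 (2 + ε))`. In the sense of `AtApproximations s` (numerators and
denominators of the convergents of the continued fraction of almost all real numbers, simultaneous rational
approximations of the points of `ℝ ^ d`, Hausdorff dimensions of the exceptional sets), for all `c`: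
`log |x| < (2 + ε) log |d| - c` for all integral points `(x, ± n)`, `x ≠ 0`, of all the curves `y² = x³ + d`,
`d ≠ 0`. -/
theorem result (ε : ℝ) (hε0 : 0 ≤ ε) (c : ℕ) :
    AtApproximations (1 / 6 + 1 / (9 * (2 + ε))) (HallAt ε c) := by
  have h2 : 0 < 2 + ε := by linarith
  set δ : ℝ := 1 / 2 - 1 / (2 + ε) with hδ
  have hinv : 1 / (2 + ε) ≤ 1 / 2 := one_div_le_one_div_of_le (by norm_num) (by linarith)
  have hinv0 : 0 < 1 / (2 + ε) := by positivity
  have h0 : 0 ≤ δ := by rw [hδ]; linarith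
  have h1 : δ ≤ 1 / 2 := by rw [hδ]; linarith
  have hs : 1 / 6 + 1 / (9 * (2 + ε)) = 2 / 9 - δ / 9 := by
    rw [hδ]
    field_simp
    ring
  rw [hs]
  refine at_of (B := fun n => ¬ HallAt ε c n) (by linarith) ?_ (fun n h => h)
  set C : ℝ := Real.exp ((c : ℝ) / (2 + ε)) with hC
  refine Pool.Agent.Q21.DW.ps_of
    (fun X : ℕ => {e | e ∈ Pool.Agent.Results.MP_e734ed_nt.WindowsWithoutExceptions.Exc C δ ∧
      |((e.2 : ℤ) : ℝ)| ≤ (X : ℝ)})
    (fun e => e.2.natAbs) _ _ ?_ ?_
  · intro η hη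
    obtain ⟨K, hK⟩ :=
      Pool.Agent.Results.MP_e734ed_nt.WindowsWithoutExceptions.count_y C δ h0 h1 η hη
    exact ⟨K, fun X hX => hK X (by exact_mod_cast hX)⟩
  · intro n N hn hnN hB
    unfold HallAt at hB
    push Not at hB
    obtain ⟨d, x, y, hy, hd, hx, he, hle⟩ := hB
    have hdR : 0 < |(d : ℝ)| := abs_pos.2 (by exact_mod_cast hd)
    have hxR : 0 < |(x : ℝ)| := abs_pos.2 (by exact_mod_cast hx)
    have hdd : (y : ℝ) ^ 2 - (x : ℝ) ^ 3 = d := by
      have : ((y ^ 2 : ℤ) : ℝ) = ((x ^ 3 + d : ℤ) : ℝ) := by rw [he]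
      push_cast at this
      linarith
    refine ⟨(x, y), ⟨⟨?_, ?_⟩, ?_⟩, hy⟩
    · show y ^ 2 ≠ x ^ 3
      rw [he]
      intro h
      exact hd (by linarith)
    · show |(y : ℝ) ^ 2 - (x : ℝ) ^ 3| ≤ C * |(x : ℝ)| ^ (1 / 2 - δ)
      have he1 : 1 / 2 - δ = 1 / (2 + ε) := by rw [hδ]; ring
      rw [hdd, he1, hC, ← Real.exp_log hdR, Real.rpow_def_of_pos hxR, ← Real.exp_add,
        Real.exp_le_exp]
      have h5 : Real.log |(d : ℝ)| ≤ (c + Real.log |(x : ℝ)|) / (2 + ε) := by
        rw [le_div_iff₀ h2]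
        linarith
      refine h5.trans (le_of_eq ?_)
      ring
    · show |(y : ℝ)| ≤ N
      rw [← hy] at hnN
      have h3 : |(y : ℝ)| = (y.natAbs : ℝ) := by rw [Nat.cast_natAbs, Int.cast_abs]
      rw [h3]
      exact_mod_cast hnN

end Pool.Agent.Results.MP_9d7cd1_nt.GoodApproximations
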